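import Pool.Agent.H67.Beta

namespace Pool.Agent.Results.MP_462fed_al.Counter

open Pool.Agent.H67.Beta

theorem result : ∃ (S : Type) (_ : Group S) (_ : Finite S), IsSimpleGroup S ∧
    (∃ a b : S, a * b ≠ b * a) ∧
    ∃ (r : ℕ) (x : MulAut S), r.Prime ∧ Odd r ∧ r ∣ Nat.card S ∧ 2 < orderOf x ∧
      IsLeast {m : ℕ | 1 ≤ m ∧ ∃ g : Fin m → MulAut S,
          (∀ i, g i ∈ (MulAut.conj : S →* MulAut S).range ⊔ Subgroup.zpowers x) ∧
          r ∣ Nat.card (Subgroup.closure (Set.range fun i => g i * x * (g i)⁻¹))}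
        (if r = 3 then 3 else r - 1) := by
  refine ⟨S, inferInstance, inferInstance, inferInstance, S_noncomm, 5, Φ t, by norm_num,
    by decide, five_dvd, by rw [ord_x]; norm_num, ⟨by norm_num, four⟩, ?_⟩
  rintro m ⟨_, g, hg, h5⟩
  exact low m g hg h5

end Pool.Agent.Results.MP_462fed_al.Counter
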